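import Pool.Agent.Helper79.TL.M_Lft5
import Pool.Agent.Helper79.TL.M_TA
import Pool.Agent.Helper79.TL.M_Dim
import Pool.Agent.Helper79.TL.M_Crm
import Pool.Agent.Helper79.TL.M_Ks
import Pool.Agent.Helper79.TL.M_Int
import Pool.Agent.Helper76.TL.M_Bas
import Pool.Agent.Helper76.TL.Ub
import Pool.Agent.Helper16.TLE.M_Bs5
import Pool.Agent.Helper25.TLE.M_HkW
import Pool.Agent.Helper26.TLE.M_Com
import Pool.Agent.Helper42.TLE.M_Avg
import Pool.Agent.Helper43.TLE.M_B3b
import Pool.Agent.Helper6.TLE.M_B3a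
import Pool.Agent.Helper68.TLE.M_HkS
import Pool.Agent.Helper70.TLE.M_Hk
import Pool.Agent.Helper85.TLE.M_Mon
import Pool.Agent.Helper9.TLE.M_Ev
import Pool.Agent.Helper99.TLE.M_Core2

/-!
# Project TL: Theorem A for twisted symbols, assembled (general part and `p = 5`)
-/

set_option autoImplicit false

namespace Pool.Agent.Helper79.TL

open Pool.Agent.Helper4.TL Pool.Agent.Helper93.TLE
open Pool.Agent.Helper14.W5 (S5Trm)

theorem hk' : SEHk := Pool.Agent.Helper70.TLE.hHk
theorem hkS' : SEHkS := Pool.Agent.Helper68.TLE.hHkS hk'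
theorem hkW' : SEHkW := Pool.Agent.Helper25.TLE.hHkW hk'
theorem ev' : SEEv := Pool.Agent.Helper9.TLE.hEv hkS' hkW'
theorem avg' : SEAvg := Pool.Agent.Helper42.TLE.hAvg
theorem com' : SECom := Pool.Agent.Helper26.TLE.hCom
theorem b3a' : SEB3a := Pool.Agent.Helper6.TLE.hB3a avg' Pool.Agent.Helper85.TLE.hMon com' ev'

/-- Theorem A for twisted symbols, from the dimension bounds, an integral basis and the lifting of symbols. -/
theorem hTAof (p D : ℕ) (dd : ℕ → ℕ) (hp : p.Prime) (hp2 : p ≠ 2) (hp3 : p ≠ 3) (b : B3bE p D) (ub : UBE p dd)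
    (lb : LBE p D dd) (base : CoreW p 2) (bas : BasE p D dd) (lft : LftE p) : TAE p := by
  have dim := hDim p D dd hp hp2 b3a' b ub
  have nex := hNex p D dd hp hp2 b3a' b ub lb
  have evu : EvUE p := hEvU p hp hp2 (fun R inst n G hG l hl h2 h3 => hkS' p hp hp2 R inst n G hG l hl h2 h3)
  have ks := hKs avg' com' ev' p hp hp2 nex evu
  have kk := hKk p ks base
  have crm := hCrm p D dd bas dim lft
  have int := hInt (hUIp Pool.Agent.Helper38.CV.hFar) p hp hp2
  exact hTA avg' com' ev' p hp hp2 hp3 crm kk int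

end Pool.Agent.Helper79.TL
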