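import Pool.Agent.Helper84.S7.StD1

/-!
# Project TL: lifting solutions of the signed relations of the `7`-plane from `ZMod q` to the integers, `q` prime to `6`

Relations: `F1 + F1∘ρ1 + F1∘ρ1² = 0` and `k + k∘ρ2 + k∘ρ2² = 0` with `k = F0 + F0∘T - F1`. With `c = (a - a∘ρ1) + (b - b∘ρ2)` put `F1 = 2 (a - a∘ρ1)`, `F0 = ∑_{i < h} (-1)^i c∘T^i`,
`h = 7^(r+s)` odd, `T^h = 1`: `F0 + F0∘T = 2 c`; modulo `q` the map `1 + T` is injective.
-/

set_option autoImplicit false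

namespace Pool.Agent.Helper79.TL

open Pool.Agent.Helper84.S7

namespace LiftM7

private abbrev Pq (r s : ℕ) : Type := ZMod (7 ^ r) × ZMod (7 ^ s)

private def mu {r s : ℕ} (a b c d : ℤ) (p : Pq r s) : Pq r s :=
  tr7 a b c d (fun x y => ((x, y) : Pq r s)) p.1 p.2

private theorem mu_mul (hTrm : S7Trm) {r s : ℕ} {a b c d a' b' c' d' : ℤ} (h1 : ¬ 7 ∣ a)
    (h2 : ¬ 7 ∣ d) (h3 : ¬ 7 ∣ a') (h4 : ¬ 7 ∣ d') (p : Pq r s) :
    mu a' b' c' d' (mu a b c d p) =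
      mu (a * a' + 7 * b * c') (a * b' + b * d') (c * a' + d * c') (7 * c * b' + d * d') p := by
  have h := congrFun (congrFun ((hTrm (Pq r s) r s (fun x y => (x, y))).1 a b c d a' b' c' d'
    h1 h2 h3 h4) p.1) p.2
  exact h

private theorem mu_one (hTrm : S7Trm) {r s : ℕ} (p : Pq r s) : mu 1 0 0 1 p = p := by
  have h := congrFun (congrFun (hTrm (Pq r s) r s (fun x y => (x, y))).2.1 p.1) p.2
  exact h

private theorem mu_neg (hTrm : S7Trm) {r s : ℕ} {a b c d : ℤ} (h1 : ¬ 7 ∣ a) (h2 : ¬ 7 ∣ d)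
    (p : Pq r s) : mu (-a) (-b) (-c) (-d) p = mu a b c d p := by
  have h := congrFun (congrFun ((hTrm (Pq r s) r s (fun x y => (x, y))).2.2 (-1) a b c d
    (by norm_num) h1 h2) p.1) p.2
  simp only [neg_one_mul] at h
  exact h

/-- `T`, `ρ1`, `ρ2` on points. -/
private def mT {r s : ℕ} : Pq r s → Pq r s := mu 1 1 0 1
private def m1 {r s : ℕ} : Pq r s → Pq r s := mu 2 (-1) 1 (-3)
private def m2 {r s : ℕ} : Pq r s → Pq r s := mu 5 (-3) 1 (-4)

private theorem m11 (hTrm : S7Trm) {r s : ℕ} (p : Pq r s) : m1 (m1 p) = mu 3 (-1) 1 (-2) p := by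
  unfold m1
  rw [mu_mul hTrm (by norm_num) (by norm_num) (by norm_num) (by norm_num),
    ← mu_neg hTrm (a := 3) (by norm_num) (by norm_num)]
  norm_num

private theorem m111 (hTrm : S7Trm) {r s : ℕ} (p : Pq r s) : m1 (m1 (m1 p)) = p := by
  rw [m11 hTrm]
  unfold m1
  rw [mu_mul hTrm (by norm_num) (by norm_num) (by norm_num) (by norm_num)]
  norm_num
  have h := mu_neg hTrm (a := 1) (b := 0) (c := 0) (d := 1) (by norm_num) (by norm_num) p
  rw [mu_one hTrm] at h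
  norm_num at h
  exact h

private theorem m22 (hTrm : S7Trm) {r s : ℕ} (p : Pq r s) : m2 (m2 p) = mu 4 (-3) 1 (-5) p := by
  unfold m2
  rw [mu_mul hTrm (by norm_num) (by norm_num) (by norm_num) (by norm_num)]
  norm_num

private theorem m222 (hTrm : S7Trm) {r s : ℕ} (p : Pq r s) : m2 (m2 (m2 p)) = p := by
  rw [m22 hTrm]
  unfold m2
  rw [mu_mul hTrm (by norm_num) (by norm_num) (by norm_num) (by norm_num)]
  norm_num
  have h := mu_neg hTrm (a := 1) (b := 0) (c := 0) (d := 1) (by norm_num) (by norm_num) p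
  rw [mu_one hTrm] at h
  norm_num at h
  exact h

private theorem mT2 (hTrm : S7Trm) {r s : ℕ} (p : Pq r s) : mT (m2 p) = mu 5 2 1 3 p := by
  unfold mT m2
  rw [mu_mul hTrm (by norm_num) (by norm_num) (by norm_num) (by norm_num)]
  norm_num

private theorem mT22 (hTrm : S7Trm) {r s : ℕ} (p : Pq r s) : mT (m2 (m2 p)) = mu 4 1 1 2 p := by
  rw [m22 hTrm]
  unfold mT
  rw [mu_mul hTrm (by norm_num) (by norm_num) (by norm_num) (by norm_num)]
  norm_num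

/-- the iterates of `T` -/
private theorem muT (hTrm : S7Trm) {r s : ℕ} (p : Pq r s) (n : ℕ) :
    mu 1 (n : ℤ) 0 1 p = (mT)^[n] p := by
  induction n with
  | zero => rw [Nat.cast_zero, mu_one hTrm]; rfl
  | succ n ih =>
    rw [Function.iterate_succ', Function.comp_apply, ← ih]
    have h := mu_mul hTrm (r := r) (s := s) (a := 1) (b := (n : ℤ)) (c := 0) (d := 1) (a' := 1)
      (b' := 1) (c' := 0) (d' := 1) (by norm_num) (by norm_num) (by norm_num) (by norm_num) p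
    norm_num at h
    unfold mT
    rw [h]
    congr 1
    push_cast
    ring

/-- `T` has odd order on the plane. -/
private theorem T_odd (hTrm : S7Trm) {r s : ℕ} (p : Pq r s) :
    (mT)^[7 ^ (r + s)] p = p := by
  rw [← muT hTrm]
  have h1 : (((7 ^ (r + s) : ℕ) : ℤ) : ZMod (7 ^ r)) = 0 := by
    rw [Int.cast_natCast, ZMod.natCast_eq_zero_iff]
    exact pow_dvd_pow 7 (by omega)
  have h2 : (((7 ^ (r + s) : ℕ) : ℤ) : ZMod (7 ^ s)) = 0 := by
    rw [Int.cast_natCast, ZMod.natCast_eq_zero_iff]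
    exact pow_dvd_pow 7 (by omega)
  have i1 : ((1 : ZMod (7 ^ r)))⁻¹ = 1 := ZMod.inv_eq_of_mul_eq_one _ _ _ (by ring)
  have i2 : ((1 : ZMod (7 ^ s)))⁻¹ = 1 := ZMod.inv_eq_of_mul_eq_one _ _ _ (by ring)
  obtain ⟨x, y⟩ := p
  unfold mu tr7
  simp only [h1, h2, Int.cast_zero, Int.cast_one, mul_zero, zero_mul, add_zero, zero_add, one_mul,
    i1, i2, mul_one]

/-- the alternating sum along `T` -/
private def alt {r s : ℕ} (c : Pq r s → ℤ) (n : ℕ) (p : Pq r s) : ℤ :=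
  ∑ i ∈ Finset.range n, (-1) ^ i * c ((mT)^[i] p)

private theorem alt_add {r s : ℕ} (c : Pq r s → ℤ) (n : ℕ) (p : Pq r s) :
    alt c n p + alt c n (mT p) = c p - (-1) ^ n * c ((mT)^[n] p) := by
  induction n with
  | zero => simp [alt]
  | succ n ih =>
    unfold alt at ih ⊢
    rw [Finset.sum_range_succ, Finset.sum_range_succ, pow_succ]
    have e : (mT)^[n] (mT p) = (mT)^[n + 1] p := by rw [Function.iterate_succ, Function.comp_apply]
    rw [e]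
    linear_combination ih

private theorem six_inv {q : ℕ} (hq : Nat.Coprime 6 q) : ∃ u : ZMod q, u * 6 = 1 := by
  have h1 : ((ZMod.unitOfCoprime 6 hq : (ZMod q)ˣ) : ZMod q) = 6 := by
    rw [ZMod.coe_unitOfCoprime]; rfl
  refine ⟨(((ZMod.unitOfCoprime 6 hq)⁻¹ : (ZMod q)ˣ) : ZMod q), ?_⟩
  have h2 := Units.inv_mul (ZMod.unitOfCoprime 6 hq)
  rw [h1] at h2
  exact h2

theorem main (hm : S7Trm) (r s q : ℕ) (hq0 : q ≠ 0) (hq : Nat.Coprime 6 q)
    (f : Fin 2 → ZMod (7 ^ r) → ZMod (7 ^ s) → ZMod q)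
    (hf1 : ∀ x y, f 1 x y + tr7 2 (-1) 1 (-3) (f 1) x y + tr7 3 (-1) 1 (-2) (f 1) x y = 0)
    (hf2 : ∀ x y, f 0 x y + tr7 1 1 0 1 (f 0) x y - f 1 x y +
      (tr7 5 (-3) 1 (-4) (f 0) x y + tr7 5 2 1 3 (f 0) x y - tr7 5 (-3) 1 (-4) (f 1) x y) +
      (tr7 4 (-3) 1 (-5) (f 0) x y + tr7 4 1 1 2 (f 0) x y - tr7 4 (-3) 1 (-5) (f 1) x y) = 0) :
    ∃ F : Fin 2 → ZMod (7 ^ r) → ZMod (7 ^ s) → ℤ,
      (∀ x y, F 1 x y + tr7 2 (-1) 1 (-3) (F 1) x y + tr7 3 (-1) 1 (-2) (F 1) x y = 0) ∧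
      (∀ x y, F 0 x y + tr7 1 1 0 1 (F 0) x y - F 1 x y +
        (tr7 5 (-3) 1 (-4) (F 0) x y + tr7 5 2 1 3 (F 0) x y - tr7 5 (-3) 1 (-4) (F 1) x y) +
        (tr7 4 (-3) 1 (-5) (F 0) x y + tr7 4 1 1 2 (F 0) x y - tr7 4 (-3) 1 (-5) (F 1) x y) = 0) ∧
      ∀ i x y, ((F i x y : ℤ) : ZMod q) = f i x y := by
  have hM : NeZero q := ⟨hq0⟩
  obtain ⟨u, hu⟩ := six_inv hq
  let gf : Pq r s → ZMod q := fun p => f 1 p.1 p.2
  let kf : Pq r s → ZMod q := fun p => f 0 p.1 p.2 + f 0 (mT p).1 (mT p).2 - f 1 p.1 p.2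
  let a : Pq r s → ℤ := fun p => ((u * (2 * gf p + gf (m1 p))).val : ℤ)
  let b : Pq r s → ℤ := fun p => ((u * (2 * kf p + kf (m2 p))).val : ℤ)
  have ha : ∀ p, ((a p : ℤ) : ZMod q) = u * (2 * gf p + gf (m1 p)) := by
    intro p
    show ((((u * (2 * gf p + gf (m1 p))).val : ℤ)) : ZMod q) = _
    push_cast
    exact ZMod.natCast_zmod_val _
  have hb : ∀ p, ((b p : ℤ) : ZMod q) = u * (2 * kf p + kf (m2 p)) := by
    intro p
    show ((((u * (2 * kf p + kf (m2 p))).val : ℤ)) : ZMod q) = _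
    push_cast
    exact ZMod.natCast_zmod_val _
  have q1 : ∀ p : Pq r s, gf p + gf (m1 p) + gf (m1 (m1 p)) = 0 := by
    intro p
    have h := hf1 p.1 p.2
    have h' : f 1 p.1 p.2 + f 1 (m1 p).1 (m1 p).2 +
      f 1 (mu 3 (-1) 1 (-2) p).1 (mu 3 (-1) 1 (-2) p).2 = 0 := h
    rw [← m11 hm p] at h'
    exact h'
  have q2 : ∀ p : Pq r s, kf p + kf (m2 p) + kf (m2 (m2 p)) = 0 := by
    intro p
    have h := hf2 p.1 p.2
    have h' : f 0 p.1 p.2 + f 0 (mT p).1 (mT p).2 - f 1 p.1 p.2 +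
      (f 0 (m2 p).1 (m2 p).2 + f 0 (mu 5 2 1 3 p).1 (mu 5 2 1 3 p).2 -
        f 1 (m2 p).1 (m2 p).2) +
      (f 0 (mu 4 (-3) 1 (-5) p).1 (mu 4 (-3) 1 (-5) p).2 +
        f 0 (mu 4 1 1 2 p).1 (mu 4 1 1 2 p).2 -
        f 1 (mu 4 (-3) 1 (-5) p).1 (mu 4 (-3) 1 (-5) p).2) = 0 := h
    rw [← mT2 hm p, ← mT22 hm p, ← m22 hm p] at h'
    exact h'
  let c : Pq r s → ℤ := fun p => (a p - a (m1 p)) + (b p - b (m2 p))
  let F0 : Pq r s → ℤ := alt c (7 ^ (r + s))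
  have hodd : Odd (7 ^ (r + s)) := Odd.pow (by decide)
  have hF0 : ∀ p, F0 p + F0 (mT p) = 2 * c p := by
    intro p
    have h := alt_add c (7 ^ (r + s)) p
    rw [T_odd hm, hodd.neg_one_pow] at h
    linear_combination h
  have ra : ∀ p, ((a p - a (m1 p) : ℤ) : ZMod q) = u * (3 * gf p) := by
    intro p
    rw [Int.cast_sub, ha, ha]
    have h := q1 p
    linear_combination (-u) * h
  have rb : ∀ p, ((b p - b (m2 p) : ℤ) : ZMod q) = u * (3 * kf p) := by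
    intro p
    rw [Int.cast_sub, hb, hb]
    have h := q2 p
    linear_combination (-u) * h
  have rc : ∀ p, ((2 * c p : ℤ) : ZMod q) = gf p + kf p := by
    intro p
    have e : ((2 * c p : ℤ) : ZMod q) = 2 * (((a p - a (m1 p) : ℤ) : ZMod q) + ((b p - b (m2 p) : ℤ) : ZMod q)) := by
      simp only [c]
      push_cast
      ring
    rw [e, ra, rb]
    linear_combination (gf p + kf p) * hu
  have rF0 : ∀ p, ((F0 p : ℤ) : ZMod q) = f 0 p.1 p.2 := by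
    have hstep : ∀ p : Pq r s, (((F0 (mT p) : ℤ) : ZMod q) - f 0 (mT p).1 (mT p).2) =
        -(((F0 p : ℤ) : ZMod q) - f 0 p.1 p.2) := by
      intro p
      have h : ((F0 p + F0 (mT p) : ℤ) : ZMod q) = ((2 * c p : ℤ) : ZMod q) := by rw [hF0 p]
      rw [rc] at h
      rw [Int.cast_add] at h
      have e : gf p + kf p = f 0 p.1 p.2 + f 0 (mT p).1 (mT p).2 := by
        simp only [gf, kf]
        ring
      rw [e] at h
      linear_combination h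
    have hit : ∀ (n : ℕ) (p : Pq r s), (((F0 ((mT)^[n] p) : ℤ) : ZMod q) - f 0 ((mT)^[n] p).1 ((mT)^[n] p).2) =
        (-1) ^ n * (((F0 p : ℤ) : ZMod q) - f 0 p.1 p.2) := by
      intro n p
      induction n with
      | zero => simp
      | succ n ih =>
        rw [Function.iterate_succ', Function.comp_apply, hstep, ih, pow_succ]
        ring
    intro p
    have h := hit (7 ^ (r + s)) p
    rw [T_odd hm, hodd.neg_one_pow] at h
    linear_combination (3 * u) * h - (((F0 p : ℤ) : ZMod q) - f 0 p.1 p.2) * hu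
  refine ⟨![fun x y => F0 (x, y), fun x y => 2 * (a (x, y) - a (m1 (x, y)))], ?_, ?_, ?_⟩
  · intro x y
    show 2 * (a (x, y) - a (m1 (x, y))) + 2 * (a (m1 (x, y)) - a (m1 (m1 (x, y)))) +
      2 * (a (mu 3 (-1) 1 (-2) (x, y)) - a (m1 (mu 3 (-1) 1 (-2) (x, y)))) = 0
    rw [← m11 hm, m111 hm]
    ring
  · intro x y
    have h1 := hF0 (x, y)
    have h2 := hF0 (m2 (x, y))
    have h3 := hF0 (m2 (m2 (x, y)))
    simp only [c] at h1 h2 h3
    show F0 (x, y) + F0 (mT (x, y)) - 2 * (a (x, y) - a (m1 (x, y))) +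
      (F0 (m2 (x, y)) + F0 (mu 5 2 1 3 (x, y)) -
        2 * (a (m2 (x, y)) - a (m1 (m2 (x, y))))) +
      (F0 (mu 4 (-3) 1 (-5) (x, y)) + F0 (mu 4 1 1 2 (x, y)) -
        2 * (a (mu 4 (-3) 1 (-5) (x, y)) - a (m1 (mu 4 (-3) 1 (-5) (x, y))))) = 0
    rw [m222 hm] at h3
    rw [← mT2 hm, ← mT22 hm, ← m22 hm]
    linear_combination h1 + h2 + h3
  · intro i x y
    fin_cases i
    · show ((F0 (x, y) : ℤ) : ZMod q) = f 0 x y
      exact rF0 (x, y)
    · show ((2 * (a (x, y) - a (m1 (x, y))) : ℤ) : ZMod q) = f 1 x y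
      have e : ((2 * (a (x, y) - a (m1 (x, y))) : ℤ) : ZMod q) = 2 * ((a (x, y) - a (m1 (x, y)) : ℤ) : ZMod q) := by
        push_cast
        ring
      rw [e, ra]
      have a2 : gf (x, y) = f 1 x y := rfl
      linear_combination gf (x, y) * hu + a2

end LiftM7

/-- Lifting solutions of the signed relations for `p = 7`. -/
theorem liftCore7 (hm : S7Trm) (r s q : ℕ) (hq0 : q ≠ 0) (hq : Nat.Coprime 6 q)
    (f : Fin 2 → ZMod (7 ^ r) → ZMod (7 ^ s) → ZMod q)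
    (hf1 : ∀ x y, f 1 x y + tr7 2 (-1) 1 (-3) (f 1) x y + tr7 3 (-1) 1 (-2) (f 1) x y = 0)
    (hf2 : ∀ x y, f 0 x y + tr7 1 1 0 1 (f 0) x y - f 1 x y +
      (tr7 5 (-3) 1 (-4) (f 0) x y + tr7 5 2 1 3 (f 0) x y - tr7 5 (-3) 1 (-4) (f 1) x y) +
      (tr7 4 (-3) 1 (-5) (f 0) x y + tr7 4 1 1 2 (f 0) x y - tr7 4 (-3) 1 (-5) (f 1) x y) = 0) :
    ∃ F : Fin 2 → ZMod (7 ^ r) → ZMod (7 ^ s) → ℤ,
      (∀ x y, F 1 x y + tr7 2 (-1) 1 (-3) (F 1) x y + tr7 3 (-1) 1 (-2) (F 1) x y = 0) ∧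
      (∀ x y, F 0 x y + tr7 1 1 0 1 (F 0) x y - F 1 x y +
        (tr7 5 (-3) 1 (-4) (F 0) x y + tr7 5 2 1 3 (F 0) x y - tr7 5 (-3) 1 (-4) (F 1) x y) +
        (tr7 4 (-3) 1 (-5) (F 0) x y + tr7 4 1 1 2 (F 0) x y - tr7 4 (-3) 1 (-5) (F 1) x y) = 0) ∧
      ∀ i x y, ((F i x y : ℤ) : ZMod q) = f i x y :=
  LiftM7.main hm r s q hq0 hq f hf1 hf2

end Pool.Agent.Helper79.TL
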