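import Pool.Agent.Helper79.TL.M_Lft5
import Pool.Agent.Helper79.TL.LiftCore7
import Pool.Agent.Helper14.TL7.StD

/-!
# Project TL, module Lft7: lifting twisted symbols from `ZMod (7^M)` to the integers
-/

set_option autoImplicit false

namespace Pool.Agent.Helper79.TL

open Pool.Agent.Helper4.TL (SymE SymE.add SymE.neg eps)
open Pool.Agent.Helper14.TL7
open Pool.Agent.Helper14.CV (Homog EqC act)
open Pool.Agent.Helper84.S7 (S7Trm)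
open Lf

private theorem rd_pf7 {M q q' : ℕ} (G : ℤ → ℤ → ℤ) (i : Fin 2) (x : ZMod q) (y : ZMod q') :
    pfE (rd M G) i x y = ((pfE G i x y : ℤ) : ZMod M) := by
  unfold pfE Pool.Agent.Helper76.TL7.edgeE7 Pool.Agent.Helper76.S7.edge7
  rw [zsmul_eq_mul, zsmul_eq_mul, Int.cast_mul, Int.cast_sub]
  simp [rd]

private theorem sub_pf7 {M q q' : ℕ} (G H : ℤ → ℤ → ZMod M) (i : Fin 2) (x : ZMod q)
    (y : ZMod q') : pfE (G + -H) i x y = pfE G i x y - pfE H i x y := by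
  unfold pfE Pool.Agent.Helper76.TL7.edgeE7 Pool.Agent.Helper76.S7.edge7
  simp only [Pi.add_apply, Pi.neg_apply, zsmul_eq_mul]
  ring

/-- LFT for `p = 7`. -/
theorem hLft7 (hm : S7Trm) (hRel : TRel) (hEx : TEx) (hUni : TUni) : LftE 7 := by
  intro m M g hm2 hg
  obtain ⟨r, rfl⟩ : ∃ r, m = r + 1 := ⟨m - 1, by omega⟩
  have h5 : Odd 7 := by decide
  have hg1 : SymE 7 r 1 (fun p q => g p (((7 : ℕ) : ℤ) ^ r * q)) := sym_up h5 hg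
  have h1 := hRel (ZMod (7 ^ M)) _ r 0 _ hg1
  obtain ⟨F, hF1, hF2, hF3⟩ := liftCore7 hm r 0 (7 ^ M) (by positivity)
    (Nat.Coprime.pow_right M (by norm_num)) _ h1.1 h1.2
  obtain ⟨G1, hG, hG1⟩ := hEx ℤ _ r 0 F ⟨hF1, hF2⟩
  have h2 : SymE 7 r (0 + 1) (rd (7 ^ M) G1 + -(fun p q => g p (((7 : ℕ) : ℤ) ^ r * q))) :=
    SymE.add (rd_Sym hG) (SymE.neg hg1)
  have h3 : EqC (rd (7 ^ M) G1 + -(fun p q => g p (((7 : ℕ) : ℤ) ^ r * q))) 0 := by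
    refine hUni (ZMod (7 ^ M)) _ r 0 _ h2 fun i => ?_
    funext x y
    rw [sub_pf7, rd_pf7, hG1, hF3, sub_self]
    rfl
  refine ⟨fun p q => G1 (((7 : ℕ) : ℤ) ^ r * p) q, sym_down h5 hG, ?_⟩
  obtain ⟨c, hc⟩ := h3
  refine ⟨c, fun p q hpq => ?_⟩
  have h50 : ((7 : ℕ) : ℤ) ^ r ≠ 0 := by positivity
  have hnz : ((7 : ℕ) : ℤ) ^ r * p ≠ 0 ∨ q ≠ 0 := by
    rcases hpq with h0 | h0
    · exact Or.inl (mul_ne_zero h50 h0)
    · exact Or.inr h0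
  have h5 := hc (((7 : ℕ) : ℤ) ^ r * p) q hnz
  have h6 := hg.1 (((7 : ℕ) : ℤ) ^ r) p q h50 hpq
  have h7 : ((G1 (((7 : ℕ) : ℤ) ^ r * p) q : ℤ) : ZMod (7 ^ M)) +
      -(g (((7 : ℕ) : ℤ) ^ r * p) (((7 : ℕ) : ℤ) ^ r * q)) = 0 + c := h5
  rw [h6, zero_add] at h7
  change ((G1 (((7 : ℕ) : ℤ) ^ r * p) q : ℤ) : ZMod (7 ^ M)) = g p q + c
  rw [← h7]
  abel

end Pool.Agent.Helper79.TL
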