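import Pool.Agent.Helper4.TL.Eps
import Pool.Agent.Helper14.CV.Basic

/-!
# Project TL: twisted symbols invariant under the scaling by `p` are killed by `3` up to constants

The group of all `γ` with `χ∘γ ≈ eps(γ) χ` contains `(1 1; 0 1)` and `(1 0; 1 1)`, so all of `SL₂(ℤ)`. The bijection of `P¹(𝔽₂)` to `ℤ/3` is such a symbol, so the factor `3` is necessary.
-/

set_option autoImplicit false

namespace Pool.Agent.Helper79.TL

open Pool.Agent.Helper14.CV (Homog EqC act Tl StFar act_act act_one)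
open Pool.Agent.Helper4.TL
open scoped MatrixGroups

/-- The content of UIP for twisted symbols. -/
def UIpE : Prop := ∀ (p : ℕ), p.Prime → p ≠ 2 → ∀ (R : Type) (_ : AddCommGroup R) (r s : ℕ)
  (χ : ℤ → ℤ → R), SymE p r s χ → EqC (act p 0 0 1 χ) χ → EqC ((3 : ℤ) • χ) 0

namespace UIpM

private theorem inv_mul {R : Type} [AddCommGroup R] {χ : ℤ → ℤ → R} {a b c d a' b' c' d' : ℤ}
    (hd : a * d - b * c = 1) (hd' : a' * d' - b' * c' = 1) (h : EqC (act a b c d χ) (eps a b c d • χ))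
    (h' : EqC (act a' b' c' d' χ) (eps a' b' c' d' • χ)) :
    EqC (act (a' * a + b' * c) (a' * b + b' * d) (c' * a + d' * c) (c' * b + d' * d) χ)
      (eps (a' * a + b' * c) (a' * b + b' * d) (c' * a + d' * c) (c' * b + d' * d) • χ) := by
  rw [← act_act, eps_mul (by rw [hd']; decide) (by rw [hd]; decide)]
  have h1 : EqC (act a b c d (act a' b' c' d' χ)) (act a b c d (eps a' b' c' d' • χ)) :=
    h'.act (by rw [hd]; exact one_ne_zero)
  refine h1.trans ?_
  have h2 : act a b c d (eps a' b' c' d' • χ) = eps a' b' c' d' • act a b c d χ := rfl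
  rw [h2, mul_smul]
  exact h.smul _

private theorem inv_inv {R : Type} [AddCommGroup R] {χ : ℤ → ℤ → R} {a b c d : ℤ}
    (hd : a * d - b * c = 1) (h : EqC (act a b c d χ) (eps a b c d • χ)) :
    EqC (act d (-b) (-c) a χ) (eps d (-b) (-c) a • χ) := by
  have hd' : d * a - -b * -c = 1 := by linarith
  have h1 : EqC (act d (-b) (-c) a (act a b c d χ)) (act d (-b) (-c) a (eps a b c d • χ)) :=
    h.act (by rw [hd']; exact one_ne_zero)
  have h2 : act d (-b) (-c) a (act a b c d χ) = χ := by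
    rw [act_act]
    have e1 : a * d + b * -c = 1 := by linarith
    have e2 : a * -b + b * a = 0 := by ring
    have e3 : c * d + d * -c = 0 := by ring
    have e4 : c * -b + d * a = 1 := by linarith
    rw [e1, e2, e3, e4, act_one]
  rw [h2] at h1
  have h3 : act d (-b) (-c) a (eps a b c d • χ) = eps a b c d • act d (-b) (-c) a χ := rfl
  rw [h3] at h1
  have h4 := h1.symm.smul (eps a b c d)
  rw [eps_smul_smul] at h4
  rw [eps_adj]
  exact h4

/-- All unimodular matrices are obtained from the two elementary ones. -/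
theorem all_of_gens {R : Type} [AddCommGroup R] {χ : ℤ → ℤ → R}
    (hT : EqC (act 1 1 0 1 χ) (-χ)) (hL : EqC (act 1 0 1 1 χ) (-χ)) (a b c d : ℤ)
    (hd : a * d - b * c = 1) : EqC (act a b c d χ) (eps a b c d • χ) := by
  have eT : eps 1 1 0 1 = -1 := by decide
  have eL : eps 1 0 1 1 = -1 := by decide
  let H : Subgroup SL(2, ℤ) :=
    { carrier := {M | EqC (act (M 0 0) (M 0 1) (M 1 0) (M 1 1) χ)
        (eps (M 0 0) (M 0 1) (M 1 0) (M 1 1) • χ)}
      mul_mem' := by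
        intro M N hM hN
        have hN1 : N 0 0 * N 1 1 - N 0 1 * N 1 0 = 1 := by
          rw [← Matrix.det_fin_two, N.2]
        have hM1 : M 0 0 * M 1 1 - M 0 1 * M 1 0 = 1 := by
          rw [← Matrix.det_fin_two, M.2]
        have h := inv_mul hN1 hM1 hN hM
        have e : ∀ i j : Fin 2, (M * N) i j = M i 0 * N 0 j + M i 1 * N 1 j := by
          intro i j
          rw [Matrix.SpecialLinearGroup.coe_mul, Matrix.mul_apply, Fin.sum_univ_two]
        show EqC (act ((M * N) 0 0) ((M * N) 0 1) ((M * N) 1 0) ((M * N) 1 1) χ)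
          (eps ((M * N) 0 0) ((M * N) 0 1) ((M * N) 1 0) ((M * N) 1 1) • χ)
        rw [e, e, e, e]
        exact h
      one_mem' := by
        show EqC (act ((1 : SL(2, ℤ)) 0 0) ((1 : SL(2, ℤ)) 0 1) ((1 : SL(2, ℤ)) 1 0)
          ((1 : SL(2, ℤ)) 1 1) χ) (eps ((1 : SL(2, ℤ)) 0 0) ((1 : SL(2, ℤ)) 0 1)
          ((1 : SL(2, ℤ)) 1 0) ((1 : SL(2, ℤ)) 1 1) • χ)
        simp only [Matrix.SpecialLinearGroup.coe_one, Matrix.one_apply_eq, ne_eq, Fin.isValue,
          zero_ne_one, not_false_eq_true, Matrix.one_apply_ne, one_ne_zero, act_one, eps_one,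
          one_smul]
        exact Pool.Agent.Helper14.CV.EqC.refl _
      inv_mem' := by
        intro M hM
        have hM1 : M 0 0 * M 1 1 - M 0 1 * M 1 0 = 1 := by
          rw [← Matrix.det_fin_two, M.2]
        have h := inv_inv hM1 hM
        show EqC (act ((M⁻¹ : SL(2, ℤ)) 0 0) ((M⁻¹ : SL(2, ℤ)) 0 1) ((M⁻¹ : SL(2, ℤ)) 1 0)
          ((M⁻¹ : SL(2, ℤ)) 1 1) χ) (eps ((M⁻¹ : SL(2, ℤ)) 0 0) ((M⁻¹ : SL(2, ℤ)) 0 1)
          ((M⁻¹ : SL(2, ℤ)) 1 0) ((M⁻¹ : SL(2, ℤ)) 1 1) • χ)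
        rw [Matrix.SpecialLinearGroup.coe_inv, Matrix.adjugate_fin_two]
        exact h }
  have hT' : EqC (act 1 1 0 1 χ) (eps 1 1 0 1 • χ) := by
    rw [eT, neg_smul, one_smul]; exact hT
  have hL' : EqC (act 1 0 1 1 χ) (eps 1 0 1 1 • χ) := by
    rw [eL, neg_smul, one_smul]; exact hL
  have hTm : ModularGroup.T ∈ H := by
    show EqC (act ((ModularGroup.T : SL(2, ℤ)) 0 0) ((ModularGroup.T : SL(2, ℤ)) 0 1)
      ((ModularGroup.T : SL(2, ℤ)) 1 0) ((ModularGroup.T : SL(2, ℤ)) 1 1) χ) _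
    exact hT'
  have hSm : ModularGroup.S ∈ H := by
    show EqC (act ((ModularGroup.S : SL(2, ℤ)) 0 0) ((ModularGroup.S : SL(2, ℤ)) 0 1)
      ((ModularGroup.S : SL(2, ℤ)) 1 0) ((ModularGroup.S : SL(2, ℤ)) 1 1) χ) _
    have h1 := inv_inv (by norm_num) hT'
    have h2 := inv_mul (by norm_num) (by norm_num) hL' h1
    have h3 := inv_mul (by norm_num) (by norm_num) h1 h2
    norm_num at h3
    exact h3
  have htop : (⊤ : Subgroup SL(2, ℤ)) ≤ H := by
    rw [← SpecialLinearGroup.SL2Z_generators, Subgroup.closure_le]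
    intro x hx
    rcases hx with rfl | rfl
    · exact hSm
    · exact hTm
  have hdet : (!![a, b; c, d] : Matrix (Fin 2) (Fin 2) ℤ).det = 1 := by
    rw [Matrix.det_fin_two_of]
    exact hd
  have hmem : (⟨!![a, b; c, d], hdet⟩ : SL(2, ℤ)) ∈ H := htop (Subgroup.mem_top _)
  exact hmem

/-- A `u`-invariant twisted symbol is a twisted symbol for all of `SL₂(ℤ)`. -/
theorem full {p : ℕ} (hp : p.Prime) (hp2 : p ≠ 2) {R : Type} [AddCommGroup R] {r s : ℕ}
    {χ : ℤ → ℤ → R} (hχ : SymE p r s χ) (hu : EqC (act p 0 0 1 χ) χ) :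
    EqC (act 1 1 0 1 χ) (-χ) ∧ EqC (act 1 0 1 1 χ) (-χ) := by
  have hp0 : (p : ℤ) ≠ 0 := by
    have : p ≠ 0 := hp.ne_zero
    exact_mod_cast this
  have hodd : ∀ k : ℕ, ((p : ℤ) ^ k) % 2 = 1 := by
    intro k
    have h1 : Odd p := hp.odd_of_ne_two hp2
    have h2 : Odd ((p : ℤ) ^ k) := Odd.pow (by exact_mod_cast h1)
    exact Int.odd_iff.1 h2
  have detu : (p : ℤ) * 1 - 0 * 0 ≠ 0 := by simpa using hp0
  have st1 : ∀ b : ℤ, EqC (act 1 (p * b) 0 1 χ) (-χ) → EqC (act 1 b 0 1 χ) (-χ) := by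
    intro b hb
    have e1 : act 1 b 0 1 (act p 0 0 1 χ) = act p 0 0 1 (act 1 (p * b) 0 1 χ) := by
      rw [act_act, act_act]
      congr 1 <;> ring
    have h1 : EqC (act 1 b 0 1 χ) (act 1 b 0 1 (act p 0 0 1 χ)) := hu.symm.act (by norm_num)
    rw [e1] at h1
    have h2 : EqC (act p 0 0 1 (-χ)) (-χ) := hu.neg
    exact h1.trans ((hb.act detu).trans h2)
  have st2 : ∀ c : ℤ, EqC (act 1 0 (p * c) 1 χ) (-χ) → EqC (act 1 0 c 1 χ) (-χ) := by
    intro c hc
    have e1 : act 1 0 (p * c) 1 (act p 0 0 1 χ) = act p 0 0 1 (act 1 0 c 1 χ) := by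
      rw [act_act, act_act]
      congr 1 <;> ring
    have h1 : EqC (act p 0 0 1 (act 1 0 c 1 χ)) (act p 0 0 1 (-χ)) := by
      rw [← e1]
      exact (hu.act (by norm_num)).trans (hc.trans hu.symm.neg)
    obtain ⟨k, hk⟩ := h1
    have hF : Homog (act 1 0 c 1 χ) := hχ.1.act (by norm_num)
    refine ⟨k, fun x y hxy => ?_⟩
    have hxy' : x ≠ 0 ∨ (p : ℤ) * y ≠ 0 := by
      rcases hxy with hx | hy
      · exact Or.inl hx
      · exact Or.inr (mul_ne_zero hp0 hy)
    have h2 := hk x (p * y) hxy'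
    have e2 : act p 0 0 1 (act 1 0 c 1 χ) x (p * y) = act 1 0 c 1 χ x y := by
      rw [← hF p x y hp0 hxy]
      show act 1 0 c 1 χ (p * x + 0 * (p * y)) (0 * x + 1 * (p * y)) = _
      congr 1 <;> ring
    have e3 : act p 0 0 1 (-χ) x (p * y) = (-χ) x y := by
      show -(χ (p * x + 0 * (p * y)) (0 * x + 1 * (p * y))) = -(χ x y)
      rw [← hχ.1 p x y hp0 hxy]
      congr 2 <;> ring
    rw [e2, e3] at h2
    exact h2
  constructor
  · have key : ∀ k : ℕ, EqC (act 1 ((p : ℤ) ^ k) 0 1 χ) (-χ) → EqC (act 1 1 0 1 χ) (-χ) := by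
      intro k
      induction k with
      | zero => intro h; simpa using h
      | succ k ih =>
        intro h
        rw [pow_succ'] at h
        exact ih (st1 _ h)
    have h := hχ.2 1 ((p : ℤ) ^ r) 0 1 (by ring) (dvd_refl _) (dvd_zero _)
    have e : eps 1 ((p : ℤ) ^ r) 0 1 = -1 := by
      unfold eps
      rw [if_pos]
      have := hodd r
      omega
    rw [e, neg_smul, one_smul] at h
    exact key r h
  · have key : ∀ k : ℕ, EqC (act 1 0 ((p : ℤ) ^ k) 1 χ) (-χ) → EqC (act 1 0 1 1 χ) (-χ) := by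
      intro k
      induction k with
      | zero => intro h; simpa using h
      | succ k ih =>
        intro h
        rw [pow_succ'] at h
        exact ih (st2 _ h)
    have h := hχ.2 1 0 ((p : ℤ) ^ s) 1 (by ring) (dvd_zero _) (dvd_refl _)
    have e : eps 1 0 ((p : ℤ) ^ s) 1 = -1 := by
      unfold eps
      rw [if_pos]
      have := hodd s
      omega
    rw [e, neg_smul, one_smul] at h
    exact key s h

end UIpM

open UIpM in
/-- Module UIP for twisted symbols. -/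
theorem hUIp (far : StFar) : UIpE := by
  intro p hp hp2 R _ r s χ hχ hu
  obtain ⟨hT, hL⟩ := full hp hp2 hχ hu
  have all := all_of_gens hT hL
  -- normalise: values at the three classes
  obtain ⟨ct, hct⟩ := hT
  obtain ⟨cl, hcl⟩ := hL
  have t1 := hct 1 0 (Or.inl one_ne_zero)
  have t2 := hct 0 1 (Or.inr one_ne_zero)
  have t3 := hct 1 1 (Or.inl one_ne_zero)
  have l1 := hcl 1 0 (Or.inl one_ne_zero)
  have l2 := hcl 0 1 (Or.inr one_ne_zero)
  have l3 := hcl 1 1 (Or.inl one_ne_zero)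
  simp only [act, Pi.neg_apply, mul_one, mul_zero, add_zero, zero_add, one_mul, zero_mul] at t1 t2 t3 l1 l2 l3
  -- `3 (χ(0,1) - χ(1,0)) = 0`
  have h3 : (3 : ℤ) • χ 1 0 = (3 : ℤ) • χ 0 1 := by
    -- t1 : χ 1 0 = -χ 1 0 + ct ; t2 : χ 1 1 = -χ 0 1 + ct ; l1 : χ 1 1 = -χ 1 0 + cl ; l2 : χ 0 1 = -χ 0 1 + cl
    have e1 : -χ 0 1 + ct = -χ 1 0 + cl := t2.symm.trans l1
    have e2 : ct = χ 1 0 + χ 1 0 := by rw [eq_comm, ← sub_eq_zero]; rw [← sub_eq_zero] at t1; rw [← t1]; abel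
    have e3 : cl = χ 0 1 + χ 0 1 := by rw [eq_comm, ← sub_eq_zero]; rw [← sub_eq_zero] at l2; rw [← l2]; abel
    rw [e2, e3, ← sub_eq_zero] at e1
    rw [← sub_eq_zero, ← e1]
    abel
  refine far R _ ((3 : ℤ) • χ) (hχ.1.smul (3 : ℤ)) fun a b c d hd => ?_
  show (3 : ℤ) • χ a c = (3 : ℤ) • χ b d
  have h := (all a b c d hd).diff (p := 1) (q := 0) (p' := 0) (q' := 1)
    (Or.inl one_ne_zero) (Or.inr one_ne_zero)
  have e1 : act a b c d χ 1 0 - act a b c d χ 0 1 = χ a c - χ b d := by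
    simp [act]
  have e2 : (eps a b c d • χ) 1 0 - (eps a b c d • χ) 0 1 = eps a b c d • (χ 1 0 - χ 0 1) := by
    simp [smul_sub]
  rw [e1, e2] at h
  rw [← sub_eq_zero, ← smul_sub, h, smul_comm, smul_sub, h3, sub_self, smul_zero]

end Pool.Agent.Helper79.TL
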