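import Pool.Agent.Helper4.TL.Eps
import Pool.Agent.Helper14.CV.Basic
import Pool.Agent.Helper79.S7.StE

/-!
# Project TL: the map `u = act p 0 0 1` on twisted symbols (module EVU)
-/

set_option autoImplicit false

namespace Pool.Agent.Helper79.TL

open Pool.Agent.Helper14.CV (Homog EqC act Tl)
open Pool.Agent.Helper28.WK (Tw evw)
open Pool.Agent.Helper4.TL

/-- `T_l` preserves twisted symbols of level `(0, n)` (content of HKS). -/
def HkSE (p : ℕ) : Prop := ∀ (R : Type) (_ : AddCommGroup R) (n : ℕ) (G : ℤ → ℤ → R), SymE p 0 n G →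
  ∀ l : ℕ, l.Prime → l ≠ p → l ≠ 2 → SymE p 0 n (Tl l 2 G)

/-- The content of EVU for twisted symbols. -/
def EvUE (p : ℕ) : Prop := ∀ (R : Type) (_ : AddCommGroup R) (n : ℕ) (G : ℤ → ℤ → R),
  SymE p 0 n G → SymE p 0 (n + 1) (act p 0 0 1 G) ∧
    ∀ ls : List ℕ, OkE p ls → evw 2 ls (act p 0 0 1 G) = evw 2 ls G

namespace EvUM

variable {R : Type} [AddCommGroup R]

private theorem sym_u {p n : ℕ} (hp : p.Prime) (hp2 : p ≠ 2) {G : ℤ → ℤ → R} (h : SymE p 0 n G) :
    SymE p 0 (n + 1) (act p 0 0 1 G) := by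
  have hodd : ¬ (2 : ℤ) ∣ (p : ℤ) := by
    intro h2
    have h3 : 2 ∣ p := by exact_mod_cast h2
    exact hp2 ((Nat.prime_dvd_prime_iff_eq Nat.prime_two hp).1 h3).symm
  refine SymE.act h (by simpa using hodd) ?_
  intro a b c d hd _ hc
  obtain ⟨k, hk⟩ := hc
  refine ⟨a, p * b, p ^ n * k, d, ?_, by simp, ⟨k, rfl⟩, by ring, by ring, ?_, by ring⟩
  · rw [← hd, hk]
    ring
  · rw [hk]
    ring

/-- even translations act trivially, also on the constant -/
theorem trans_eq {r n : ℕ} {G : ℤ → ℤ → R} (h : SymE r 0 n G) (t p q : ℤ)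
    (hpq : p ≠ 0 ∨ q ≠ 0) : G (p + 2 * t * q) q = G p q := by
  have h0 := h.2 1 (2 * t) 0 1 (by ring) (by simp) (by simp)
  rw [eps_id (by simp) (by simp), one_smul] at h0
  obtain ⟨c, hc⟩ := h0
  have h1 := hc 1 0 (Or.inl one_ne_zero)
  have h2 := hc p q hpq
  unfold act at h1 h2
  have e1 : (1 : ℤ) * 1 + 2 * t * 0 = 1 := by ring
  have e2 : (0 : ℤ) * 1 + 1 * 0 = 0 := by ring
  have e3 : (1 : ℤ) * p + 2 * t * q = p + 2 * t * q := by ring
  have e4 : (0 : ℤ) * p + 1 * q = q := by ring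
  rw [e1, e2] at h1
  rw [e3, e4] at h2
  have hc0 : c = 0 := by
    have := h1.symm
    simpa using this
  rw [h2, hc0, add_zero]

/-- multiplication by `p` permutes the residues modulo `l` -/
private theorem sum_perm {l p : ℕ} (hl : l.Prime) (hp : p.Prime) (hlp : l ≠ p) (h : ℤ → R)
    (hper : ∀ j t : ℤ, h (j + l * t) = h j) :
    ∑ j ∈ Finset.range l, h (p * (j : ℤ)) = ∑ j ∈ Finset.range l, h (j : ℤ) := by
  have hlpos : 0 < l := hl.pos
  have hcop : Nat.Coprime l p := (Nat.coprime_primes hl hp).2 hlp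
  have hmaps : ∀ j ∈ Finset.range l, (p * j) % l ∈ Finset.range l := fun j _ =>
    Finset.mem_range.2 (Nat.mod_lt _ hlpos)
  have hinj : Set.InjOn (fun j : ℕ => (p * j) % l) (Finset.range l : Set ℕ) := by
    intro a ha b hb hab
    have ha' := Finset.mem_range.1 (Finset.mem_coe.1 ha)
    have hb' := Finset.mem_range.1 (Finset.mem_coe.1 hb)
    have h1 : p * a ≡ p * b [MOD l] := hab
    have h2 : a ≡ b [MOD l] := Nat.ModEq.cancel_left_of_coprime hcop h1
    exact Nat.ModEq.eq_of_lt_of_lt h2 ha' hb'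
  have hsurj : Set.SurjOn (fun j : ℕ => (p * j) % l) (Finset.range l : Set ℕ)
      (Finset.range l : Set ℕ) :=
    Finset.surjOn_of_injOn_of_card_le _ hmaps hinj le_rfl
  refine Finset.sum_nbij (fun j : ℕ => (p * j) % l) hmaps hinj hsurj ?_
  intro j _
  have e : ((p : ℤ) * (j : ℤ)) = (((p * j) % l : ℕ) : ℤ) + l * (((p * j) / l : ℕ) : ℤ) := by
    have := Nat.mod_add_div (p * j) l
    exact_mod_cast this.symm
  rw [e, hper]

private theorem tl_u {p n : ℕ} (hp : p.Prime) {G : ℤ → ℤ → R} (h : SymE p 0 n G) {l : ℕ}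
    (hl : l.Prime) (hlp : l ≠ p) :
    EqC (Tl l 2 (act p 0 0 1 G)) (act p 0 0 1 (Tl l 2 G)) := by
  refine Pool.Agent.Helper14.CV.EqC.of_eq fun x q hpq => ?_
  have hl0 : (l : ℤ) ≠ 0 := by exact_mod_cast hl.ne_zero
  have e0 : Tl l 2 (act p 0 0 1 G) x q =
      G (l * (p * x)) q + ∑ j ∈ Finset.range l, G (p * x + 2 * (p * j) * q) (l * q) := by
    unfold Tl act
    exact congrArg₂ (fun x y : R => x + y) (congrArg₂ G (by ring) (by ring))
      (Finset.sum_congr rfl fun j _ => congrArg₂ G (by ring) (by ring))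
  have e1 : act p 0 0 1 (Tl l 2 G) x q =
      G (l * (p * x)) q + ∑ j ∈ Finset.range l, G (p * x + 2 * j * q) (l * q) := by
    unfold Tl act
    exact congrArg₂ (fun x y : R => x + y) (congrArg₂ G (by ring) (by ring))
      (Finset.sum_congr rfl fun j _ => congrArg₂ G (by ring) (by ring))
  rw [e0, e1]
  refine congrArg (fun y : R => G (l * (p * x)) q + y) ?_
  by_cases hq : q = 0
  · refine Finset.sum_congr rfl fun j _ => ?_
    rw [hq]
    exact congrArg₂ G (by ring) (by ring)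
  · have hlq : (l : ℤ) * q ≠ 0 := mul_ne_zero hl0 hq
    refine sum_perm hl hp hlp (fun j : ℤ => G (p * x + 2 * j * q) (l * q)) ?_
    intro j t
    have e : p * x + 2 * (j + l * t) * q = (p * x + 2 * j * q) + 2 * t * (l * q) := by ring
    rw [e]
    exact trans_eq h t _ _ (Or.inr hlq)

/-- Words preserve twisted symbols. -/
theorem tw_sym {p : ℕ} (hs : HkSE p) {n : ℕ} {G : ℤ → ℤ → R}
    (hG : SymE p 0 n G) : ∀ ls : List ℕ, OkE p ls → SymE p 0 n (Tw 2 ls G)
  | [], _ => hG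
  | l :: ls, h => by
    have h1 := h l (List.mem_cons_self ..)
    have h2 : OkE p ls := fun x hx => h x (List.mem_cons_of_mem _ hx)
    exact hs R inferInstance n _ (tw_sym hs hG ls h2) l h1.1 h1.2.1 h1.2.2

private theorem tw_u {p : ℕ} (hs : HkSE p) (hp : p.Prime) {n : ℕ}
    {G : ℤ → ℤ → R} (hG : SymE p 0 n G) : ∀ ls : List ℕ, OkE p ls →
      EqC (Tw 2 ls (act p 0 0 1 G)) (act p 0 0 1 (Tw 2 ls G))
  | [], _ => Pool.Agent.Helper14.CV.EqC.refl _
  | l :: ls, h => by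
    have h1 := h l (List.mem_cons_self ..)
    have h2 : OkE p ls := fun x hx => h x (List.mem_cons_of_mem _ hx)
    have h3 := (tw_u hs hp hG ls h2).Tl h1.1.pos 2
    exact h3.trans (tl_u hp (tw_sym hs hG ls h2) h1.1 h1.2.1)

end EvUM

/-- Module EVU. `u (a b; c d) = (a pb; c/p d) u`, and `j ↦ p j` permutes the residues modulo `l`. -/
theorem hEvU (p : ℕ) (hp : p.Prime) (hp2 : p ≠ 2) (hs : HkSE p) : EvUE p := by
  intro R _ n G h
  refine ⟨EvUM.sym_u hp hp2 h, fun ls hls => ?_⟩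
  have h4 := EvUM.tw_sym hs h ls hls
  have h5 := EvUM.tw_u hs hp h ls hls
  have h6 := h5.diff (p := 1) (q := 0) (p' := 0) (q' := 1) (Or.inl one_ne_zero)
    (Or.inr one_ne_zero)
  have hp0 : (p : ℤ) ≠ 0 := by exact_mod_cast hp.ne_zero
  unfold evw
  rw [h6]
  have h7 := h4.1 p 1 0 hp0 (Or.inl one_ne_zero)
  unfold act
  have e1 : (p : ℤ) * 1 + 0 * 0 = p * 1 := by ring
  have e2 : (0 : ℤ) * 1 + 1 * 0 = p * 0 := by ring
  have e3 : (p : ℤ) * 0 + 0 * 1 = 0 := by ring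
  have e4 : (0 : ℤ) * 0 + 1 * 1 = 1 := by ring
  rw [e1, e2, e3, e4, h7]

end Pool.Agent.Helper79.TL
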