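import Pool.Agent.Helper93.TLE.StB
import Pool.Agent.Helper79.TL.M_EvU
import Pool.Agent.Helper79.TL.M_UIp

/-!
# Project TL (levels `4 p^n`): Theorem A modulo `p^M` for twisted symbols, for all weights

Contents of the modules; the model is `Helper14/W5/StE.lean` and `Helper79/S7/StE.lean` with the sign character `eps` (`SymE`, `OkE`, `evw 2`). Differences: invariance under `u` only gives `3 χ ≈ 0`
(`UIpE`), so INT needs the factor `3`; the base of the induction for `K` is `CoreW p 2`.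
-/

set_option autoImplicit false

namespace Pool.Agent.Helper79.TL

open Pool.Agent.Helper14.CV (Homog EqC act Tl)
open Pool.Agent.Helper28.WK (Tw evw)
open Pool.Agent.Helper4.TL Pool.Agent.Helper93.TLE
open Pool.Agent.Helper79.S7 (evc)

/-- Killed by all words. -/
def WzE {R : Type} [AddCommGroup R] (p : ℕ) (m : ℤ) (G : ℤ → ℤ → R) : Prop :=
  ∀ ls : List ℕ, OkE p ls → evw m ls G = 0

/-- All words of `C` are words in the `T_l`, `l ≠ 2, p` prime. -/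
def OkCE (p : ℕ) (C : List (ℤ × List ℕ)) : Prop := ∀ c ∈ C, OkE p c.2

/-- The content of BAS: an integral family with determinant prime to `p`. -/
def BasE (p D : ℕ) (dd : ℕ → ℕ) : Prop := ∀ m : ℕ, 3 ≤ m →
  ∃ (G : Fin (DDE D dd m) → ℤ → ℤ → ℤ) (C : Fin (DDE D dd m) → List (ℤ × List ℕ)),
    (∀ k, SymE p 0 m (G k)) ∧ (∀ l, OkCE p (C l)) ∧
    ¬ (p : ℤ) ∣ Matrix.det (Matrix.of fun k l => evc 2 (C l) (G k))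

/-- The content of DIM. -/
def DimE (p D : ℕ) (dd : ℕ → ℕ) : Prop := ∀ (m : ℕ) (G : Fin (DDE D dd m) → (ℤ → ℤ → ℂ)), 3 ≤ m →
  (∀ k, SymE p 0 m (G k)) → LinearIndependent ℂ (fun k => evLE p (G k)) →
  ∀ H : ℤ → ℤ → ℂ, SymE p 0 m H → evLE p H ∈ Submodule.span ℂ (Set.range fun k => evLE p (G k))

/-- The content of NEX. -/
def NexE (p : ℕ) : Prop := ∀ (m : ℕ) (G0 G1 : ℤ → ℤ → ℂ), 3 ≤ m →
  SymE p 0 (m - 1) G0 → NewSymE p m G1 → (∀ ls : List ℕ, OkE p ls → evw 2 ls G0 + evw 2 ls G1 = 0) → EqC G1 0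

/-- The content of KS. -/
def KsE (p : ℕ) : Prop := ∀ (m : ℕ) (G : ℤ → ℤ → ℂ), 3 ≤ m → SymE p 0 m G →
  EqC (act 0 (-1) ((p : ℤ) ^ m) 0 G) (-G) → EqC (act (-1) 0 0 1 G) G → WzE p 2 G →
  ∃ G' ψ : ℤ → ℤ → ℂ, SymE p 0 (m - 1) G' ∧ SymE p 0 (m - 1) ψ ∧
    EqC (act 0 (-1) ((p : ℤ) ^ (m - 1)) 0 G') (-G') ∧ EqC (act (-1) 0 0 1 G') G' ∧
    WzE p 2 G' ∧ EqC G (G' + (act p 0 0 1 ψ - ψ))

/-- The content of K. -/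
def KkE (p : ℕ) : Prop := ∀ (m : ℕ) (G : ℤ → ℤ → ℂ), 3 ≤ m → SymE p 0 m G →
  EqC (act 0 (-1) ((p : ℤ) ^ m) 0 G) (-G) → EqC (act (-1) 0 0 1 G) G → WzE p 2 G →
  ∃ ψ : ℤ → ℤ → ℂ, SymE p 0 (m - 1) ψ ∧ EqC (act p 0 0 1 ψ - ψ) G

/-- The content of LFT. -/
def LftE (p : ℕ) : Prop := ∀ (m M : ℕ) (g : ℤ → ℤ → ZMod (p ^ M)), 2 ≤ m →
  SymE p 0 m g → ∃ G : ℤ → ℤ → ℤ, SymE p 0 m G ∧ EqC (fun x y => ((G x y : ℤ) : ZMod (p ^ M))) g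

/-- The content of CRM. -/
def CrmE (p : ℕ) : Prop := ∀ (m M : ℕ) (g : ℤ → ℤ → ZMod (p ^ M)), 3 ≤ m → SymE p 0 m g → WzE p 2 g →
  ∃ (d : ℤ) (G : ℤ → ℤ → ℤ), ¬ (p : ℤ) ∣ d ∧ SymE p 0 m G ∧ WzE p 2 G ∧
    EqC (fun x y => ((G x y : ℤ) : ZMod (p ^ M))) (d • g)

/-- The content of INT. -/
def IntE (p : ℕ) : Prop := ∀ (m : ℕ) (ψ : ℤ → ℤ → ℂ) (G : ℤ → ℤ → ℤ), SymE p 0 m ψ →
  EqC (act p 0 0 1 ψ - ψ) (fun x y => ((G x y : ℤ) : ℂ)) →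
  ∃ ψ' : ℤ → ℤ → ℤ, SymE p 0 m ψ' ∧ EqC (act p 0 0 1 ψ' - ψ') ((3 : ℤ) • G)

/-- Theorem A for twisted symbols. -/
def TAE (p : ℕ) : Prop := ∀ (m M : ℕ) (g : ℤ → ℤ → ZMod (p ^ M)), 3 ≤ m → SymE p 0 m g →
  EqC (act 0 (-1) ((p : ℤ) ^ m) 0 g) (-g) → EqC (act (-1) 0 0 1 g) g →
  (∀ ls : List ℕ, OkE p ls → evw 2 ls g = 0) →
  ∃ ψ : ℤ → ℤ → ZMod (p ^ M), SymE p 0 (m - 1) ψ ∧ EqC (act p 0 0 1 ψ - ψ) ((4 : ℤ) • g)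

end Pool.Agent.Helper79.TL
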