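import Pool.Agent.Helper79.TL.StE
import Pool.Agent.Helper79.TL.LiftCore
import Pool.Agent.Helper4.TL.StD

/-!
# Project TL, module Lft5: lifting twisted symbols from `ZMod (5^M)` to the integers
-/

set_option autoImplicit false

namespace Pool.Agent.Helper79.TL

open Pool.Agent.Helper4.TL
open Pool.Agent.Helper14.CV (Homog EqC act)
open Pool.Agent.Helper14.W5 (S5Trm edge5)

namespace Lf

/-- the reduction modulo `q` -/
def rd (q : ℕ) (G : ℤ → ℤ → ℤ) : ℤ → ℤ → ZMod q :=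
  fun u v => ((G u v : ℤ) : ZMod q)

theorem rd_Sym {p q r s : ℕ} {G : ℤ → ℤ → ℤ} (h : SymE p r s G) : SymE p r s (rd q G) := by
  refine ⟨?_, ?_⟩
  · intro k u v hk hpq
    change ((G (k * u) (k * v) : ℤ) : ZMod q) = ((G u v : ℤ) : ZMod q)
    rw [h.1 k u v hk hpq]
  · intro a b c d hdet hb hc
    obtain ⟨e, he⟩ := h.2 a b c d hdet hb hc
    refine ⟨(e : ZMod q), ?_⟩
    intro u v hpq
    have h1 := he u v hpq
    have h2 : G (a * u + b * v) (c * u + d * v) = eps a b c d • G u v + e := h1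
    change ((G (a * u + b * v) (c * u + d * v) : ℤ) : ZMod q) =
      eps a b c d • ((G u v : ℤ) : ZMod q) + e
    rw [h2, Int.cast_add, zsmul_eq_mul, zsmul_eq_mul, Int.cast_mul]
    simp

theorem odd_pow {p : ℕ} (hp : Odd p) (r : ℕ) (x : ℤ) : (2 : ℤ) ∣ (p : ℤ) ^ r * x - x := by
  have h : Odd ((p : ℤ) ^ r) := ((Int.odd_coe_nat p).2 hp).pow
  obtain ⟨k, hk⟩ := h
  rw [hk]
  exact ⟨k * x, by ring⟩

/-- from level `(0, r + s)` to level `(r, s)` -/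
theorem sym_up {R : Type} [AddCommGroup R] {p : ℕ} (hp : Odd p) {r s : ℕ} {g : ℤ → ℤ → R}
    (h : SymE p 0 (r + s) g) : SymE p r s (fun u v => g u ((p : ℤ) ^ r * v)) := by
  have hp0 : (p : ℤ) ≠ 0 := by
    intro h0
    have : p = 0 := by exact_mod_cast h0
    rw [this] at hp
    exact absurd hp (by decide)
  have hnz : ∀ {u v : ℤ}, (u ≠ 0 ∨ v ≠ 0) → (u ≠ 0 ∨ (p : ℤ) ^ r * v ≠ 0) := by
    intro u v hpq
    rcases hpq with h0 | h0
    · exact Or.inl h0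
    · exact Or.inr (mul_ne_zero (pow_ne_zero _ hp0) h0)
  refine ⟨?_, ?_⟩
  · intro k u v hk hpq
    have e := h.1 k u ((p : ℤ) ^ r * v) hk (hnz hpq)
    have e1 : (p : ℤ) ^ r * (k * v) = k * ((p : ℤ) ^ r * v) := by ring
    change g (k * u) ((p : ℤ) ^ r * (k * v)) = g u ((p : ℤ) ^ r * v)
    rw [e1, e]
  · intro a b c d hdet hb hc
    obtain ⟨b', hb'⟩ := hb
    obtain ⟨c', hc'⟩ := hc
    obtain ⟨k, hk⟩ := h.2 a b' ((p : ℤ) ^ r * c) d (by rw [← hdet, hb']; ring) (by simp)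
      ⟨c', by rw [hc', pow_add]; ring⟩
    refine ⟨k, ?_⟩
    intro u v hpq
    have e := hk u ((p : ℤ) ^ r * v) (hnz hpq)
    change g (a * u + b * v) ((p : ℤ) ^ r * (c * u + d * v)) = eps a b c d • g u ((p : ℤ) ^ r * v) + k
    have e' : g (a * u + b' * ((p : ℤ) ^ r * v)) ((p : ℤ) ^ r * c * u + d * ((p : ℤ) ^ r * v)) =
        eps a b' ((p : ℤ) ^ r * c) d • g u ((p : ℤ) ^ r * v) + k := e
    have e1 : a * u + b * v = a * u + b' * ((p : ℤ) ^ r * v) := by rw [hb']; ring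
    have e2 : (p : ℤ) ^ r * (c * u + d * v) = (p : ℤ) ^ r * c * u + d * ((p : ℤ) ^ r * v) := by ring
    have e3 : eps a b' ((p : ℤ) ^ r * c) d = eps a b c d := by
      apply eps_mod
      · simp
      · rw [hb']
        have := odd_pow hp r b'
        rw [← dvd_neg, neg_sub]
        exact this
      · exact odd_pow hp r c
      · simp
    rw [e1, e2, e', e3]

/-- from level `(r, s)` to level `(0, r + s)` -/
theorem sym_down {R : Type} [AddCommGroup R] {p : ℕ} (hp : Odd p) {r s : ℕ} {G : ℤ → ℤ → R}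
    (h : SymE p r s G) : SymE p 0 (r + s) (fun u v => G ((p : ℤ) ^ r * u) v) := by
  have hp0 : (p : ℤ) ≠ 0 := by
    intro h0
    have : p = 0 := by exact_mod_cast h0
    rw [this] at hp
    exact absurd hp (by decide)
  have hnz : ∀ {u v : ℤ}, (u ≠ 0 ∨ v ≠ 0) → ((p : ℤ) ^ r * u ≠ 0 ∨ v ≠ 0) := by
    intro u v hpq
    rcases hpq with h0 | h0
    · exact Or.inl (mul_ne_zero (pow_ne_zero _ hp0) h0)
    · exact Or.inr h0
  refine ⟨?_, ?_⟩
  · intro k u v hk hpq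
    have e := h.1 k ((p : ℤ) ^ r * u) v hk (hnz hpq)
    have e1 : (p : ℤ) ^ r * (k * u) = k * ((p : ℤ) ^ r * u) := by ring
    change G ((p : ℤ) ^ r * (k * u)) (k * v) = G ((p : ℤ) ^ r * u) v
    rw [e1, e]
  · intro a b c d hdet _ hc
    obtain ⟨c', hc'⟩ := hc
    obtain ⟨k, hk⟩ := h.2 a ((p : ℤ) ^ r * b) ((p : ℤ) ^ s * c') d
      (by rw [← hdet, hc', pow_add]; ring) (Dvd.intro _ rfl) (Dvd.intro _ rfl)
    refine ⟨k, ?_⟩
    intro u v hpq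
    have e := hk ((p : ℤ) ^ r * u) v (hnz hpq)
    have e' : G (a * ((p : ℤ) ^ r * u) + (p : ℤ) ^ r * b * v) ((p : ℤ) ^ s * c' * ((p : ℤ) ^ r * u) + d * v) =
        eps a ((p : ℤ) ^ r * b) ((p : ℤ) ^ s * c') d • G ((p : ℤ) ^ r * u) v + k := e
    change G ((p : ℤ) ^ r * (a * u + b * v)) (c * u + d * v) = eps a b c d • G ((p : ℤ) ^ r * u) v + k
    have e1 : (p : ℤ) ^ r * (a * u + b * v) = a * ((p : ℤ) ^ r * u) + (p : ℤ) ^ r * b * v := by ring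
    have e2 : c * u + d * v = (p : ℤ) ^ s * c' * ((p : ℤ) ^ r * u) + d * v := by
      rw [hc', pow_add]
      ring
    have e3 : eps a ((p : ℤ) ^ r * b) ((p : ℤ) ^ s * c') d = eps a b c d := by
      apply eps_mod
      · simp
      · exact odd_pow hp r b
      · have h1 := odd_pow hp r ((p : ℤ) ^ s * c')
        have h2 : (p : ℤ) ^ s * c' - c = -((p : ℤ) ^ r * ((p : ℤ) ^ s * c') - (p : ℤ) ^ s * c') := by
          rw [hc', pow_add]; ring
        rw [h2]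
        exact (dvd_neg).2 h1
      · simp
    rw [e1, e2, e', e3]

end Lf

open Lf

private theorem rd_pf {M q q' : ℕ} (G : ℤ → ℤ → ℤ) (i : Fin 2) (x : ZMod q) (y : ZMod q') :
    pfE (rd M G) i x y = ((pfE G i x y : ℤ) : ZMod M) := by
  unfold pfE edgeE edge5
  rw [zsmul_eq_mul, zsmul_eq_mul, Int.cast_mul, Int.cast_sub]
  simp [rd]

private theorem sub_pf {M q q' : ℕ} (G H : ℤ → ℤ → ZMod M) (i : Fin 2) (x : ZMod q)
    (y : ZMod q') : pfE (G + -H) i x y = pfE G i x y - pfE H i x y := by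
  unfold pfE edgeE edge5
  simp only [Pi.add_apply, Pi.neg_apply, zsmul_eq_mul]
  ring

/-- LFT for `p = 5`. -/
theorem hLft5 (hm : S5Trm) (hRel : TRel) (hEx : TEx) (hUni : TUni) : LftE 5 := by
  intro m M g hm2 hg
  obtain ⟨r, rfl⟩ : ∃ r, m = r + 1 := ⟨m - 1, by omega⟩
  have h5 : Odd 5 := by decide
  have hg1 : SymE 5 r 1 (fun p q => g p (((5 : ℕ) : ℤ) ^ r * q)) := sym_up h5 hg
  have h1 := hRel (ZMod (5 ^ M)) _ r 0 _ hg1
  obtain ⟨F, hF1, hF2, hF3⟩ := liftCore hm r 0 (5 ^ M) (Odd.pow h5) _ h1.1 h1.2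
  obtain ⟨G1, hG, hG1⟩ := hEx ℤ _ r 0 F ⟨hF1, hF2⟩
  have h2 : SymE 5 r (0 + 1) (rd (5 ^ M) G1 + -(fun p q => g p (((5 : ℕ) : ℤ) ^ r * q))) :=
    SymE.add (rd_Sym hG) (SymE.neg hg1)
  have h3 : EqC (rd (5 ^ M) G1 + -(fun p q => g p (((5 : ℕ) : ℤ) ^ r * q))) 0 := by
    refine hUni (ZMod (5 ^ M)) _ r 0 _ h2 fun i => ?_
    funext x y
    rw [sub_pf, rd_pf, hG1, hF3, sub_self]
    rfl
  refine ⟨fun p q => G1 (((5 : ℕ) : ℤ) ^ r * p) q, sym_down h5 hG, ?_⟩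
  obtain ⟨c, hc⟩ := h3
  refine ⟨c, fun p q hpq => ?_⟩
  have h50 : ((5 : ℕ) : ℤ) ^ r ≠ 0 := by positivity
  have hnz : ((5 : ℕ) : ℤ) ^ r * p ≠ 0 ∨ q ≠ 0 := by
    rcases hpq with h0 | h0
    · exact Or.inl (mul_ne_zero h50 h0)
    · exact Or.inr h0
  have h5 := hc (((5 : ℕ) : ℤ) ^ r * p) q hnz
  have h6 := hg.1 (((5 : ℕ) : ℤ) ^ r) p q h50 hpq
  have h7 : ((G1 (((5 : ℕ) : ℤ) ^ r * p) q : ℤ) : ZMod (5 ^ M)) +
      -(g (((5 : ℕ) : ℤ) ^ r * p) (((5 : ℕ) : ℤ) ^ r * q)) = 0 + c := h5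
  rw [h6, zero_add] at h7
  change ((G1 (((5 : ℕ) : ℤ) ^ r * p) q : ℤ) : ZMod (5 ^ M)) = g p q + c
  rw [← h7]
  abel

end Pool.Agent.Helper79.TL
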