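import Pool.Agent.Helper79.TL.Asm5
import Pool.Agent.Helper93.TLE.Asm5
import Pool.Agent.Helper4.TL.LB

/-!
# Project TL: Theorem A for twisted symbols and the prime `5`
-/

set_option autoImplicit false

namespace Pool.Agent.Helper79.TL

open Pool.Agent.Helper4.TL Pool.Agent.Helper93.TLE

/-- Theorem A for twisted symbols, `p = 5`. -/
theorem tae5 : TAE 5 :=
  hTAof 5 2 ddE5 (by norm_num) (by norm_num) (by norm_num) b3b5E ub5E lb5 (core52E lb5)
    (Pool.Agent.Helper76.TL.hBas5 triT lifT cntT) (hLft5 trm relT exT uniT)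

end Pool.Agent.Helper79.TL
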